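import Pool.Agent.Y882.PX.MainX

/-! Uniform version of the bound for the number of the constant terms with a large error term. -/

set_option autoImplicit false

namespace Pool.Agent.Y882.PY

open Finset Polynomial Filter
open Pool.Agent.W23.DC
open Pool.Agent.Y882.PX

theorem ro_le_pow2 (F : ℤ[X]) (K : ℕ) (k : ℤ) (T : Finset ℕ) (hT : ∀ p ∈ T, p.Prime)
    (hK : ∀ p ∈ T, ro F k p ≤ K) : (ro F k (∏ p ∈ T, p) : ℝ) ≤ (K : ℝ) ^ T.card := by
  rw [ro_prod F k T hT]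
  push_cast
  calc ∏ p ∈ T, (ro F k p : ℝ) ≤ ∏ p ∈ T, (K : ℝ) := by
        apply Finset.prod_le_prod
        · intro p _; positivity
        · intro p hp
          exact_mod_cast hK p hp
    _ = _ := by rw [prod_const]

open Classical in
/-- few constant terms with a large error term -/
theorem few_err2 (K : ℕ) (β τ' ε : ℝ) (hβ : 0 < β) (hτ0 : 0 < τ') (hτ1 : τ' ≤ 1) (hε : 0 < ε) :
    ∃ Y0 : ℕ, ∀ Y : ℕ, Y0 ≤ Y → ∀ (F : ℤ[X]) (P : Finset ℕ) (c : Finset ℕ → ℝ) (H X : ℕ),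
      (∀ p ∈ P, p.Prime) → (∀ p ∈ P, ∀ k : ℤ, ro F k p ≤ K) →
      (∀ T, |c T| ≤ 5 * Real.log Y) →
      (∀ T ⊆ P, c T ≠ 0 → ((∏ p ∈ T, p : ℕ) : ℝ) ≤ (Y : ℝ) ^ τ') → (Y : ℝ) ^ β ≤ X →
      (((Icc (-(H : ℤ)) (H : ℤ)).filter (fun k => (X : ℝ) * (Y : ℝ) ^ (-(ε / 16)) <
        |∑ T ∈ P.powerset, c T * rr F k (∏ p ∈ T, p) X|)).card : ℝ) ≤
      (H + (Y : ℝ) ^ (2 * τ')) / X * (Y : ℝ) ^ (ε / 2) := by
  obtain ⟨C, hC1, HC⟩ := pow_card_le K (ε / (8 * τ')) (by positivity)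
  have ev1 : ∀ᶠ Y : ℕ in atTop, 4800 * (C + 1) * (Real.log ((Y : ℝ))) ^ 5 ≤
      (Y : ℝ) ^ (ε / 8) := by
    have h1 : Tendsto (fun x : ℝ => Real.log x ^ (5 : ℝ) / x ^ (ε / 8)) atTop (nhds 0) := by
      have := isLittleO_log_rpow_rpow_atTop (5 : ℝ) (show 0 < ε / 8 by linarith)
      exact this.tendsto_div_nhds_zero
    have h2 := h1.eventually_le_const (show (0 : ℝ) < 1 / (4800 * (C + 1)) by
      positivity)
    have h3 := tendsto_natCast_atTop_atTop.eventually (h2.and (eventually_gt_atTop (0 : ℝ)))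
    filter_upwards [h3] with X hX
    obtain ⟨h4, h5⟩ := hX
    have h6 : (0 : ℝ) < (X : ℝ) ^ (ε / 8) := by positivity
    rw [div_le_div_iff₀ h6 (by positivity), one_mul] at h4
    have h7 : Real.log (X : ℝ) ^ (5 : ℝ) = Real.log (X : ℝ) ^ (5 : ℕ) := by
      rw [← Real.rpow_natCast]
      norm_num
    rw [h7] at h4
    linarith
  obtain ⟨Y1, hY1⟩ := eventually_atTop.1 (ev1.and (eventually_ge_atTop 3))
  refine ⟨Y1, fun Y hY F P c H X hP hK hc1 hc2 hX => ?_⟩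
  obtain ⟨e1, e3⟩ := hY1 Y hY
  have hY3 : (3 : ℝ) ≤ Y := by exact_mod_cast e3
  have hY0 : (0 : ℝ) < Y := by linarith
  have hY1r : (1 : ℝ) ≤ Y := by linarith
  have hX0 : (0 : ℝ) < X := lt_of_lt_of_le (by positivity) hX
  have hlY1 : 1 ≤ Real.log Y := by
    rw [Real.le_log_iff_exp_le (by linarith)]
    linarith [Real.exp_one_lt_d9]
  set D : ℕ := ⌊(Y : ℝ) ^ τ'⌋₊ with hD
  have hYτ1 : (1 : ℝ) ≤ (Y : ℝ) ^ τ' := Real.one_le_rpow (by linarith) hτ0.le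
  have hD1 : 1 ≤ D := by
    rw [hD]
    exact Nat.le_floor (by exact_mod_cast hYτ1)
  have hDle : (D : ℝ) ≤ (Y : ℝ) ^ τ' := Nat.floor_le (by positivity)
  have hDY : (D : ℝ) ≤ Y := by
    refine hDle.trans ?_
    calc (Y : ℝ) ^ τ' ≤ (Y : ℝ) ^ (1 : ℝ) := Real.rpow_le_rpow_of_exponent_le (by linarith) hτ1
      _ = Y := Real.rpow_one _
  have hB : ∀ T ⊆ P, ∏ p ∈ T, p ≤ D → ∀ k : ℤ,
      (ro F k (∏ p ∈ T, p) : ℝ) ≤ C * (Y : ℝ) ^ (ε / 8) := by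
    intro T hT hTD k
    have hTp : ∀ p ∈ T, p.Prime := fun p hp => hP p (hT hp)
    refine (ro_le_pow2 F K k T hTp (fun p hp => hK p (hT hp) k)).trans ((HC T hTp).trans ?_)
    apply mul_le_mul_of_nonneg_left _ (by linarith)
    have h1 : ((∏ p ∈ T, p : ℕ) : ℝ) ≤ (Y : ℝ) ^ τ' := le_trans (by exact_mod_cast hTD) hDle
    calc ((∏ p ∈ T, p : ℕ) : ℝ) ^ (ε / (8 * τ')) ≤
        ((Y : ℝ) ^ τ') ^ (ε / (8 * τ')) :=
          Real.rpow_le_rpow (Nat.cast_nonneg _) h1 (by positivity)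
      _ = (Y : ℝ) ^ (ε / 8) := by
          rw [← Real.rpow_mul hY0.le]
          congr 1
          field_simp
  have herr := err_sq F P hP c (5 * Real.log Y) hc1 D hD1 (C * (Y : ℝ) ^ (ε / 8)) hB (by
    intro T hT hcT
    exact Nat.le_floor (hc2 T hT hcT)) H X
  set A := (Icc (-(H : ℤ)) (H : ℤ)).filter (fun k => (X : ℝ) * (Y : ℝ) ^ (-(ε / 16)) <
        |∑ T ∈ P.powerset, c T * rr F k (∏ p ∈ T, p) X|) with hA
  have hYe : (0 : ℝ) < (Y : ℝ) ^ (-(ε / 16)) := by positivity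
  have h1 : (A.card : ℝ) * ((X : ℝ) * (Y : ℝ) ^ (-(ε / 16))) ^ 2 ≤
      6 * (2 * H + 1 + (D : ℝ) ^ 2) * (2 * (5 * Real.log Y) ^ 2 * (1 + Real.log D) ^ 3 *
        (C * (Y : ℝ) ^ (ε / 8) + 1) * X) := by
    refine le_trans ?_ herr
    calc (A.card : ℝ) * ((X : ℝ) * (Y : ℝ) ^ (-(ε / 16))) ^ 2 =
        ∑ k ∈ A, ((X : ℝ) * (Y : ℝ) ^ (-(ε / 16))) ^ 2 := by rw [sum_const, nsmul_eq_mul]
      _ ≤ ∑ k ∈ A, (∑ T ∈ P.powerset, c T * rr F k (∏ p ∈ T, p) X) ^ 2 := by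
          apply sum_le_sum
          intro k hk
          rw [hA, mem_filter] at hk
          rw [← sq_abs (∑ T ∈ P.powerset, c T * rr F k (∏ p ∈ T, p) X)]
          exact pow_le_pow_left₀ (by positivity) hk.2.le 2
      _ ≤ _ := sum_le_sum_of_subset_of_nonneg (filter_subset _ _) (fun _ _ _ => by positivity)
  have hlD : 1 + Real.log D ≤ 2 * Real.log Y := by
    have h2 : Real.log D ≤ Real.log Y :=
      Real.log_le_log (by exact_mod_cast hD1) hDY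
    linarith
  have hlD0 : 0 ≤ 1 + Real.log D := by
    have := Real.log_natCast_nonneg D
    linarith
  have hYε1 : 1 ≤ (Y : ℝ) ^ (ε / 8) := Real.one_le_rpow hY1r (by linarith)
  set E : ℝ := (H : ℝ) + (Y : ℝ) ^ (2 * τ') with hE
  have hE0 : 0 ≤ E := by positivity
  have hsum : 2 * (H : ℝ) + 1 + (D : ℝ) ^ 2 ≤ 2 * E := by
    have h3 : (D : ℝ) ^ 2 ≤ (Y : ℝ) ^ (2 * τ') := by
      calc (D : ℝ) ^ 2 ≤ ((Y : ℝ) ^ τ') ^ 2 := pow_le_pow_left₀ (Nat.cast_nonneg _) hDle 2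
        _ = (Y : ℝ) ^ (2 * τ') := by
            rw [← Real.rpow_natCast, ← Real.rpow_mul hY0.le]
            congr 1
            push_cast
            ring
    have h4 : 1 ≤ (Y : ℝ) ^ (2 * τ') := Real.one_le_rpow hY1r (by linarith)
    rw [hE]
    linarith
  have h2 : 6 * (2 * H + 1 + (D : ℝ) ^ 2) * (2 * (5 * Real.log Y) ^ 2 * (1 + Real.log D) ^ 3 *
        (C * (Y : ℝ) ^ (ε / 8) + 1) * X) ≤
      4800 * (C + 1) * (Real.log Y) ^ 5 * ((Y : ℝ) ^ (ε / 8) * X * E) := by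
    have h3 : (1 + Real.log D) ^ 3 ≤ (2 * Real.log Y) ^ 3 := pow_le_pow_left₀ hlD0 hlD 3
    have h4 : C * (Y : ℝ) ^ (ε / 8) + 1 ≤ (C + 1) * (Y : ℝ) ^ (ε / 8) := by linarith
    have hl0 : 0 ≤ Real.log Y := by linarith
    calc 6 * (2 * H + 1 + (D : ℝ) ^ 2) * (2 * (5 * Real.log Y) ^ 2 * (1 + Real.log D) ^ 3 *
        (C * (Y : ℝ) ^ (ε / 8) + 1) * X) ≤
        6 * (2 * E) * (2 * (5 * Real.log Y) ^ 2 * (2 * Real.log Y) ^ 3 *
        ((C + 1) * (Y : ℝ) ^ (ε / 8)) * X) := by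
          apply mul_le_mul
          · linarith
          · apply mul_le_mul_of_nonneg_right _ hX0.le
            apply mul_le_mul _ h4 (by positivity) (by positivity)
            exact mul_le_mul_of_nonneg_left h3 (by positivity)
          · positivity
          · positivity
      _ = _ := by ring
  have h3 : 4800 * (C + 1) * (Real.log Y) ^ 5 * ((Y : ℝ) ^ (ε / 8) * X * E) ≤
      (E / X * (Y : ℝ) ^ (ε / 2)) * ((X : ℝ) * (Y : ℝ) ^ (-(ε / 16))) ^ 2 := by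
    calc 4800 * (C + 1) * (Real.log Y) ^ 5 * ((Y : ℝ) ^ (ε / 8) * X * E) ≤
        (Y : ℝ) ^ (ε / 8) * ((Y : ℝ) ^ (ε / 8) * X * E) :=
          mul_le_mul_of_nonneg_right e1 (by positivity)
      _ = (Y : ℝ) ^ (ε / 4) * (X * E) := by
          have : (Y : ℝ) ^ (ε / 4) = (Y : ℝ) ^ (ε / 8) * (Y : ℝ) ^ (ε / 8) := by
            rw [← Real.rpow_add hY0]
            congr 1
            ring
          rw [this]
          ring
      _ ≤ (Y : ℝ) ^ (ε / 2 + -(ε / 16) * 2) * (X * E) := by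
          apply mul_le_mul_of_nonneg_right _ (by positivity)
          exact Real.rpow_le_rpow_of_exponent_le hY1r (by linarith)
      _ = _ := by
          rw [Real.rpow_add hY0, Real.rpow_mul hY0.le (-(ε / 16)) 2]
          rw [show ((Y : ℝ) ^ (-(ε / 16))) ^ (2 : ℝ) = ((Y : ℝ) ^ (-(ε / 16))) ^ 2 by norm_num]
          field_simp
  exact le_of_mul_le_mul_right ((h1.trans h2).trans h3) (by positivity)

end Pool.Agent.Y882.PY
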