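import Pool.Agent.Y882.PY.Mer3

/-! Almost prime values of polynomials, for all but few constant terms: uniform version. -/

set_option autoImplicit false

namespace Pool.Agent.Y882.PY

open Finset Polynomial Filter
open Pool.Agent.W23.DC
open Pool.Agent.Y882.PX

open Classical in
/-- the numbers `n ≤ X` such that `|F(n) + k| > 1` and all prime factors of `F(n) + k` are at least `z` -/
noncomputable def goodz (F : ℤ[X]) (k : ℤ) (X : ℕ) (z : ℝ) : Finset ℕ :=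
  (Icc 1 X).filter (fun n : ℕ => 1 < |F.eval (n : ℤ) + k| ∧
    ∀ p : ℕ, p.Prime → (p : ℤ) ∣ F.eval (n : ℤ) + k → z ≤ p)

theorem VV_sdiff (P S : Finset ℕ) (c : Finset ℕ → ℝ) (h : ℕ → ℝ)
    (hS : ∀ p ∈ P, p ∈ S → h p = 0) : VV P c h = VV (P \ S) c h := by
  classical
  unfold VV
  symm
  apply sum_subset (powerset_mono.2 sdiff_subset)
  intro T hT hT'
  rw [mem_powerset] at hT hT'
  have : ∃ p ∈ T, p ∉ P \ S := by
    by_contra hcon
    push Not at hcon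
    exact hT' hcon
  obtain ⟨p, hp, hp'⟩ := this
  have hpS : p ∈ S := by
    by_contra hcon
    exact hp' (Finset.mem_sdiff.2 ⟨hT hp, hcon⟩)
  rw [prod_eq_zero hp (hS p (hT hp) hpS), mul_zero]

theorem ro_zero (F : ℤ[X]) (k : ℤ) (p : ℕ) (hp : 0 < p) (h : ro F k p = 0) (n : ℕ) :
    ¬ (p : ℤ) ∣ F.eval (n : ℤ) + k := by
  intro hd
  rw [ro_eq, card_eq_zero] at h
  have h1 : n % p ∈ (range p).filter (fun n : ℕ => (p : ℤ) ∣ F.eval (n : ℤ) + k) := by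
    rw [mem_filter, mem_range]
    refine ⟨Nat.mod_lt _ hp, ?_⟩
    have h2 : (n : ℤ) - ((n % p : ℕ) : ℤ) ∣ F.eval (n : ℤ) - F.eval ((n % p : ℕ) : ℤ) :=
      sub_dvd_eval_sub _ _ _
    have h3 : (p : ℤ) ∣ (n : ℤ) - ((n % p : ℕ) : ℤ) := by
      push_cast
      exact Int.dvd_self_sub_emod
    have h4 := h3.trans h2
    have h5 : F.eval ((n % p : ℕ) : ℤ) + k =
        (F.eval (n : ℤ) + k) - (F.eval (n : ℤ) - F.eval ((n % p : ℕ) : ℤ)) := by ring
    rw [h5]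
    exact dvd_sub hd h4
  rw [h] at h1
  exact absurd h1 (notMem_empty _)

/-- the sieve inequality, with a set of skipped primes -/
theorem sieve_ineq2 (F : ℤ[X]) (k : ℤ) (X : ℕ) (P S : Finset ℕ) (hP : ∀ p ∈ P, p.Prime)
    (hS : ∀ p ∈ P, p ∈ S → ro F k p = 0) (c : Finset ℕ → ℝ)
    (hc : ∀ N : ℕ, VV P c (fun p => if p ∣ N then 1 else 0) ≤ (if ∀ p ∈ P, ¬ p ∣ N then 1 else 0)) :
    (X : ℝ) * VV P c (fun p => (ro F k p : ℝ) / p) +
      ∑ T ∈ (P \ S).powerset, c T * rr F k (∏ p ∈ T, p) X ≤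
      (((Icc 1 X).filter (fun n : ℕ => ∀ p ∈ P, ¬ p ∣ (F.eval (n : ℤ) + k).natAbs)).card : ℝ) := by
  classical
  have hP' : ∀ p ∈ P \ S, p.Prime := fun p hp => hP p (mem_sdiff.1 hp).1
  rw [VV_sdiff P S c (fun p => (ro F k p : ℝ) / p) (fun p hp hpS => by
    show (ro F k p : ℝ) / p = 0
    rw [hS p hp hpS]; simp)]
  have h1 : (X : ℝ) * VV (P \ S) c (fun p => (ro F k p : ℝ) / p) +
      ∑ T ∈ (P \ S).powerset, c T * rr F k (∏ p ∈ T, p) X =
      ∑ T ∈ (P \ S).powerset, c T * cnt F k (∏ p ∈ T, p) X := by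
    unfold VV
    rw [mul_sum, ← sum_add_distrib]
    apply sum_congr rfl
    intro T hT
    rw [mem_powerset] at hT
    unfold rr
    rw [ro_prod F k T (fun p hp => hP' p (hT hp))]
    push_cast
    rw [prod_div_distrib]
    ring
  rw [h1, card_filter]
  push_cast
  have h2 : ∑ T ∈ (P \ S).powerset, c T * (cnt F k (∏ p ∈ T, p) X : ℝ) =
      ∑ n ∈ Icc 1 X, VV (P \ S) c
        (fun p => if p ∣ (F.eval (n : ℤ) + k).natAbs then 1 else 0) := by
    unfold VV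
    rw [sum_comm]
    apply sum_congr rfl
    intro T hT
    rw [mem_powerset] at hT
    unfold cnt
    rw [card_filter]
    push_cast
    rw [mul_sum]
    apply sum_congr rfl
    intro n _
    rw [Pool.Agent.Y882.PX.prod_ind T (fun p hp => hP' p (hT hp))]
    congr 1
    have h3 : (((∏ p ∈ T, p : ℕ) : ℤ) ∣ F.eval (n : ℤ) + k) ↔
        (∏ p ∈ T, p) ∣ (F.eval (n : ℤ) + k).natAbs := Int.natCast_dvd
    push_cast at h3
    by_cases h4 : (∏ p ∈ T, p) ∣ (F.eval (n : ℤ) + k).natAbs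
    · rw [if_pos (h3.2 h4), if_pos h4]
    · rw [if_neg (fun h => h4 (h3.1 h)), if_neg h4]
  rw [h2]
  apply sum_le_sum
  intro n _
  rw [← VV_sdiff P S c (fun p => if p ∣ (F.eval (n : ℤ) + k).natAbs then 1 else 0)
    (fun p hp hpS => by
      show (if p ∣ (F.eval (n : ℤ) + k).natAbs then (1 : ℝ) else 0) = 0
      rw [if_neg]
      intro hd
      exact ro_zero F k p (hP p hp).pos (hS p hp hpS) n (Int.natCast_dvd.2 hd))]
  exact hc _

/-- comparison of the sifted set and the set of the statement -/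
theorem sifted_le2 (F : ℤ[X]) (hF : 1 ≤ F.natDegree) (k : ℤ) (X Y : ℕ) (ζ : ℝ)
    (hY : 2 ≤ Y) (hζ : ζ ≤ 1) :
    (((Icc 1 X).filter (fun n : ℕ => ∀ p ∈ PZ Y ζ, ¬ p ∣ (F.eval (n : ℤ) + k).natAbs)).card : ℝ) ≤
      (goodz F k X ((Y : ℝ) ^ ζ)).card + 3 * F.natDegree := by
  classical
  have hYr : (2 : ℝ) ≤ Y := by exact_mod_cast hY
  have h1 : ((Icc 1 X).filter (fun n : ℕ => ∀ p ∈ PZ Y ζ, ¬ p ∣ (F.eval (n : ℤ) + k).natAbs)) ⊆
      goodz F k X ((Y : ℝ) ^ ζ) ∪ (Icc 1 X).filter (fun n : ℕ => |F.eval (n : ℤ) + k| ≤ 1) := by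
    intro n hn
    rw [mem_filter] at hn
    rw [mem_union]
    rcases le_or_gt |F.eval (n : ℤ) + k| 1 with h | h
    · right
      rw [mem_filter]
      exact ⟨hn.1, h⟩
    · left
      unfold goodz
      rw [mem_filter]
      refine ⟨hn.1, h, ?_⟩
      intro p hp hd
      by_contra hlt
      push Not at hlt
      apply hn.2 p
      · unfold PZ
        rw [mem_filter, mem_Icc]
        refine ⟨⟨hp.one_le, ?_⟩, hp, (tt_lt Y p ζ hY hp.pos).2 hlt⟩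
        have h3 : (Y : ℝ) ^ ζ ≤ Y := by
          calc (Y : ℝ) ^ ζ ≤ (Y : ℝ) ^ (1 : ℝ) :=
                Real.rpow_le_rpow_of_exponent_le (by linarith) hζ
            _ = Y := Real.rpow_one _
        exact_mod_cast (hlt.trans_le h3).le
      · exact Int.natCast_dvd.1 hd
  have h2 := (card_le_card h1).trans (card_union_le _ _)
  have h3 := small_vals F hF k X
  have h4 : ((Icc 1 X).filter
      (fun n : ℕ => ∀ p ∈ PZ Y ζ, ¬ p ∣ (F.eval (n : ℤ) + k).natAbs)).card ≤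
      (goodz F k X ((Y : ℝ) ^ ζ)).card + 3 * F.natDegree := by omega
  exact_mod_cast h4

open Classical in
/-- the engine: lower bounds for all regular constant terms outside a small set -/
theorem engine_core (K : ℕ) (β ζ ε : ℝ) (hβ : 0 < β) (hζ0 : 0 < ζ) (hζ : ζ < 1 / 2) (hε : 0 < ε)
    (hεβ : ε ≤ β) :
    ∃ δ ε₁ η : ℝ, 0 < δ ∧ 0 < ε₁ ∧ ε₁ ≤ ζ ∧ ε₁ ≤ β ∧ 0 < η ∧ ∃ Y0 : ℕ, ∀ Y : ℕ, Y0 ≤ Y →
      ∀ (F : ℤ[X]) (S : Finset ℕ) (H X Z : ℕ), 1 ≤ F.natDegree → F.natDegree ≤ K →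
      (∀ p : ℕ, p.Prime → p ∉ S → ∀ k : ℤ, ro F k p ≤ K) → (Y : ℝ) ^ β ≤ X → (Y : ℝ) ^ β ≤ Z →
      ∃ A : Finset ℤ, (A.card : ℝ) ≤ (H + (Y : ℝ) ^ (4 * ζ)) / X * (Y : ℝ) ^ ε ∧
        ∀ k ∈ Icc (-(H : ℤ)) (H : ℤ), k ∉ A → (∀ p ∈ S, p.Prime → ro F k p = 0) →
          Mer (pr Y ε₁ ζ) (tt Y) (fun p => (ro F k p : ℝ) / p) ε₁ ζ η →
          δ * X * loc F k Z ≤ ((goodz F k X ((Y : ℝ) ^ ζ)).card : ℝ) := by
  obtain ⟨s, hs0, hs1, hs2⟩ : ∃ s : ℝ, 0 < s ∧ s ≤ ε / 16 ∧ s ≤ (1 / 2 - ζ) / 2 :=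
    ⟨min (ε / 16) ((1 / 2 - ζ) / 2), lt_min (by linarith) (by linarith),
      min_le_left _ _, min_le_right _ _⟩
  obtain ⟨τ, hτ1, hτ2, hτ3⟩ : ∃ τ : ℝ, 2 * ζ < τ ∧ τ ≤ 4 * ζ ∧ τ ≤ 2 * ζ + s := by
    refine ⟨min (4 * ζ) (2 * ζ + s), lt_min (by linarith) (by linarith), min_le_left _ _,
      min_le_right _ _⟩
  set τ' : ℝ := τ + s with hτ'
  have hτ'1 : τ' ≤ 1 := by linarith
  have hττ' : τ < τ' := by linarith
  obtain ⟨ε₁, η, f, hε₁, hε₁ζ, hε₁β, hη, hf, Y1, HC⟩ :=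
    core2 K τ ζ τ' β hζ0 hτ1 hτ2 (by linarith) hττ' hβ
  obtain ⟨Y3, HE⟩ := few_err2 K β τ' ε hβ (by linarith) hτ'1 hε
  obtain ⟨c0, hc0, HV⟩ := V_low K
  obtain ⟨Y4, HJ⟩ := exJ ε₁ hε₁
  have ev1 : ∀ᶠ Y : ℕ in atTop, (3 * Real.log Y) ^ (2 * K) ≤ (Y : ℝ) ^ (ε / 64) := by
    have h1 : Tendsto (fun x : ℝ => Real.log x ^ ((2 * K : ℕ) : ℝ) / x ^ (ε / 64)) atTop (nhds 0) := by
      have := isLittleO_log_rpow_rpow_atTop (((2 * K : ℕ) : ℝ)) (show 0 < ε / 64 by linarith)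
      exact this.tendsto_div_nhds_zero
    have h2 := h1.eventually_le_const (show (0 : ℝ) < 1 / (3 ^ (2 * K)) by positivity)
    have h3 := tendsto_natCast_atTop_atTop.eventually (h2.and (eventually_gt_atTop (0 : ℝ)))
    filter_upwards [h3] with X hX
    obtain ⟨h4, h5⟩ := hX
    have h6 : (0 : ℝ) < (X : ℝ) ^ (ε / 64) := by positivity
    rw [div_le_div_iff₀ h6 (by positivity), one_mul, Real.rpow_natCast] at h4
    rw [mul_pow]
    linarith
  have ev2 : ∀ᶠ Y : ℕ in atTop, 4 * (3 * K + 1) / (f * c0) ≤ (Y : ℝ) ^ (ε / 64) :=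
    tendsto_natCast_atTop_atTop.eventually
      ((tendsto_rpow_atTop (by linarith)).eventually_ge_atTop _)
  obtain ⟨Y5, hY5⟩ := eventually_atTop.1 (ev1.and (ev2.and (eventually_ge_atTop 3)))
  refine ⟨f / 2, ε₁, η, by positivity, hε₁, hε₁ζ, hε₁β, hη, max (max Y1 Y3) (max Y4 Y5), ?_⟩
  intro Y hY F S H X Z hF hFK hK hX hZ
  obtain ⟨e1, e2, e5⟩ := hY5 Y (((le_max_right _ _).trans (le_max_right _ _)).trans hY)
  have hY1 : Y1 ≤ Y := ((le_max_left _ _).trans (le_max_left _ _)).trans hY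
  have hY3' : Y3 ≤ Y := ((le_max_right _ _).trans (le_max_left _ _)).trans hY
  have hY4 : Y4 ≤ Y := ((le_max_left _ _).trans (le_max_right _ _)).trans hY
  have hYr : (3 : ℝ) ≤ Y := by exact_mod_cast e5
  have hY0 : (0 : ℝ) < Y := by linarith
  have hY1r : (1 : ℝ) ≤ Y := by linarith
  have hX0 : (0 : ℝ) < X := lt_of_lt_of_le (by positivity) hX
  have hlY1 : 1 ≤ Real.log Y := by
    rw [Real.le_log_iff_exp_le (by linarith)]
    linarith [Real.exp_one_lt_d9]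
  obtain ⟨c, hcL, hcD, hcN, hcV⟩ := HC Y hY1
  obtain ⟨J, hJ1, hJ2⟩ := HJ Y hY4
  have hPZ : ∀ w : ℝ, ∀ p ∈ PZ Y w, p.Prime ∧ p ≤ Y ∧ (p : ℝ) < (Y : ℝ) ^ w := by
    intro w p hp
    unfold PZ at hp
    rw [mem_filter, mem_Icc] at hp
    exact ⟨hp.2.1, hp.1.2, (tt_lt Y p w (by omega) hp.2.1.pos).1 hp.2.2⟩
  have hA2 := HE Y hY3' F (PZ Y ζ \ S) c H X (fun p hp => (hPZ ζ p (mem_sdiff.1 hp).1).1)
    (fun p hp k => hK p (hPZ ζ p (mem_sdiff.1 hp).1).1 (mem_sdiff.1 hp).2 k) hcL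
    (fun T hT hcT => hcD T (hT.trans sdiff_subset) hcT) hX
  set A2 := (Icc (-(H : ℤ)) H).filter (fun k => (X : ℝ) * (Y : ℝ) ^ (-(ε / 16)) <
        |∑ T ∈ (PZ Y ζ \ S).powerset, c T * rr F k (∏ p ∈ T, p) X|) with hA2def
  -- size of J
  have hJlog : (2 : ℝ) ^ J ≤ 3 * Real.log Y := by
    have h6 := Real.log_le_log (by positivity) hJ2
    rw [Real.log_rpow (by linarith), Real.log_pow] at h6
    push_cast at h6
    have h7 : 0.69 < Real.log 2 := by linarith [Real.log_two_gt_d9]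
    have h8 : (2 : ℝ) ^ J * 0.69 ≤ (2 : ℝ) ^ J * Real.log 2 :=
      mul_le_mul_of_nonneg_left h7.le (by positivity)
    have h9 : 2 * ε₁ * Real.log Y ≤ 1 * Real.log Y :=
      mul_le_mul_of_nonneg_right (by linarith) (by linarith)
    linarith
  refine ⟨A2, ?_, ?_⟩
  · refine hA2.trans ?_
    have h1 : (Y : ℝ) ^ (2 * τ') ≤ (Y : ℝ) ^ (4 * ζ) * (Y : ℝ) ^ (ε / 2) := by
      rw [← Real.rpow_add hY0]
      exact Real.rpow_le_rpow_of_exponent_le hY1r (by linarith)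
    have h2 : (1 : ℝ) ≤ (Y : ℝ) ^ (ε / 2) := Real.one_le_rpow hY1r (by linarith)
    calc (H + (Y : ℝ) ^ (2 * τ')) / X * (Y : ℝ) ^ (ε / 2) ≤
        ((H + (Y : ℝ) ^ (4 * ζ)) * (Y : ℝ) ^ (ε / 2)) / X * (Y : ℝ) ^ (ε / 2) := by
          apply mul_le_mul_of_nonneg_right _ (by positivity)
          apply div_le_div_of_nonneg_right _ hX0.le
          have h3 : (0 : ℝ) ≤ H := Nat.cast_nonneg _
          nlinarith
      _ = (H + (Y : ℝ) ^ (4 * ζ)) / X * ((Y : ℝ) ^ (ε / 2) * (Y : ℝ) ^ (ε / 2)) := by ring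
      _ = _ := by
          rw [← Real.rpow_add hY0]
          congr 2
          ring
  intro k hk hk2 hS hmer
  have herr : |∑ T ∈ (PZ Y ζ \ S).powerset, c T * rr F k (∏ p ∈ T, p) X| ≤
      (X : ℝ) * (Y : ℝ) ^ (-(ε / 16)) := by
    by_contra h
    push Not at h
    exact hk2 (by rw [hA2def, mem_filter]; exact ⟨hk, h⟩)
  have hroK : ∀ p : ℕ, p.Prime → ro F k p ≤ K := by
    intro p hp
    by_cases h : p ∈ S
    · rw [hS p h hp]; omega
    · exact hK p hp h k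
  -- trivial case
  by_cases hfull : ∃ p ∈ (Icc 1 Z).filter Nat.Prime, ro F k p = p
  · obtain ⟨p, hp, hpr⟩ := hfull
    have h1 : loc F k Z = 0 := by
      unfold loc
      apply prod_eq_zero hp
      rw [hpr]
      have : (p : ℝ) ≠ 0 := by exact_mod_cast (mem_filter.1 hp).2.ne_zero
      rw [div_self this, sub_self]
    rw [h1, mul_zero]
    positivity
  push Not at hfull
  have hlt : ∀ p : ℕ, p.Prime → p ≤ Z → (ro F k p : ℝ) ≤ p - 1 := by
    intro p hp hpX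
    have h1 := ro_le_self F k p
    have h2 := hfull p (by rw [mem_filter, mem_Icc]; exact ⟨⟨hp.one_le, hpX⟩, hp⟩)
    have h3 : ro F k p + 1 ≤ p := by omega
    have h4 : (ro F k p : ℝ) + 1 ≤ p := by exact_mod_cast h3
    linarith
  have hsubX : PZ Y ε₁ ⊆ (Icc 1 Z).filter Nat.Prime := by
    intro p hp
    obtain ⟨h1, h2, h3⟩ := hPZ ε₁ p hp
    rw [mem_filter, mem_Icc]
    refine ⟨⟨h1.one_le, ?_⟩, h1⟩
    have h4 : (Y : ℝ) ^ ε₁ ≤ Z :=
      (Real.rpow_le_rpow_of_exponent_le hY1r hε₁β).trans hZ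
    exact_mod_cast (h3.trans_le h4).le
  have hr01 : ∀ p ∈ (Icc 1 Z).filter Nat.Prime,
      0 ≤ 1 - (ro F k p : ℝ) / p ∧ 1 - (ro F k p : ℝ) / p ≤ 1 := by
    intro p hp
    have hp0 : (0 : ℝ) < p := by exact_mod_cast (mem_filter.1 hp).2.pos
    have h1 : (ro F k p : ℝ) ≤ p := by exact_mod_cast ro_le_self F k p
    constructor
    · rw [sub_nonneg, div_le_one hp0]
      exact h1
    · have : 0 ≤ (ro F k p : ℝ) / p := by positivity
      linarith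
  have hlocV : loc F k Z ≤ ∏ p ∈ PZ Y ε₁, (1 - (ro F k p : ℝ) / p) := by
    unfold loc
    rw [← prod_sdiff hsubX]
    calc (∏ p ∈ (Icc 1 Z).filter Nat.Prime \ PZ Y ε₁, (1 - (ro F k p : ℝ) / p)) *
        ∏ p ∈ PZ Y ε₁, (1 - (ro F k p : ℝ) / p) ≤
        1 * ∏ p ∈ PZ Y ε₁, (1 - (ro F k p : ℝ) / p) := by
          apply mul_le_mul_of_nonneg_right
          · apply prod_le_one
            · intro p hp
              exact (hr01 p (mem_sdiff.1 hp).1).1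
            · intro p hp
              exact (hr01 p (mem_sdiff.1 hp).1).2
          · exact prod_nonneg fun p hp => (hr01 p (hsubX hp)).1
      _ = _ := one_mul _
  set V1 : ℝ := ∏ p ∈ PZ Y ε₁, (1 - (ro F k p : ℝ) / p) with hV1
  have hVlow : c0 * (1 / 2 ^ J) ^ (2 * K) ≤ V1 := by
    apply HV J (PZ Y ε₁) (fun p => (ro F k p : ℝ))
    · intro p hp
      obtain ⟨h1, h2, h3⟩ := hPZ ε₁ p hp
      refine ⟨h1, ?_⟩
      have := h3.trans_le hJ1
      exact_mod_cast this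
    · intro p hp
      exact_mod_cast hroK p (hPZ ε₁ p hp).1
    · intro p hp
      have := hsubX hp
      rw [mem_filter, mem_Icc] at this
      exact hlt p this.2 this.1.2
  have hVlow2 : c0 / (Y : ℝ) ^ (ε / 64) ≤ V1 := by
    refine le_trans ?_ hVlow
    rw [div_eq_mul_one_div]
    apply mul_le_mul_of_nonneg_left _ hc0.le
    rw [one_div_pow]
    apply one_div_le_one_div_of_le (by positivity)
    exact (pow_le_pow_left₀ (by positivity) hJlog _).trans e1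
  have hV0 : 0 < V1 := lt_of_lt_of_le (by positivity) hVlow2
  -- main inequality
  have hmain := hcV (fun p => (ro F k p : ℝ) / p) (fun p _ => by positivity) (by
    intro p hp
    have hp0 : (0 : ℝ) < p := by exact_mod_cast (hPZ ε₁ p hp).1.pos
    have h1 : (ro F k p : ℝ) ≤ p := by exact_mod_cast ro_le_self F k p
    show (ro F k p : ℝ) / p ≤ 1
    rw [div_le_one hp0]
    exact h1) (by
    intro p hp _
    have hp0 : (2 : ℝ) ≤ p := by exact_mod_cast (hPZ ε₁ p hp).1.two_le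
    have h1 : (ro F k p : ℝ) ≤ K := by exact_mod_cast hroK p (hPZ ε₁ p hp).1
    show (ro F k p : ℝ) / p ≤ K / ((p : ℝ) - 1)
    apply div_le_div₀ (Nat.cast_nonneg _) h1 (by linarith) (by linarith)) hmer
  have hs := sieve_ineq2 F k X (PZ Y ζ) S (fun p hp => (hPZ ζ p hp).1)
    (fun p hp hpS => hS p hpS (hPZ ζ p hp).1) c hcN
  have hsl := sifted_le2 F hF k X Y ζ (by omega) (by linarith)
  have hm1 : (X : ℝ) * (f * V1) ≤
      (X : ℝ) * VV (PZ Y ζ) c (fun p => (ro F k p : ℝ) / p) :=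
    mul_le_mul_of_nonneg_left hmain hX0.le
  have hm2 := neg_le_of_abs_le herr
  -- the error terms
  have hε64 : (0 : ℝ) < (Y : ℝ) ^ (ε / 64) := by positivity
  have hfV : f * (c0 / (Y : ℝ) ^ (ε / 64)) ≤ f * V1 := mul_le_mul_of_nonneg_left hVlow2 hf.le
  have hbase : 4 * (3 * K + 1) * (Y : ℝ) ^ (-(ε / 32)) ≤ f * V1 := by
    refine le_trans ?_ hfV
    rw [mul_div_assoc', le_div_iff₀ hε64]
    rw [div_le_iff₀ (by positivity)] at e2
    calc 4 * (3 * (K : ℝ) + 1) * (Y : ℝ) ^ (-(ε / 32)) * (Y : ℝ) ^ (ε / 64) ≤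
        ((Y : ℝ) ^ (ε / 64) * (f * c0)) * (Y : ℝ) ^ (-(ε / 32)) * (Y : ℝ) ^ (ε / 64) := by
          apply mul_le_mul_of_nonneg_right _ hε64.le
          exact mul_le_mul_of_nonneg_right e2 (by positivity)
      _ = (f * c0) * ((Y : ℝ) ^ (ε / 64) * (Y : ℝ) ^ (-(ε / 32)) * (Y : ℝ) ^ (ε / 64)) := by ring
      _ = f * c0 := by
          rw [← Real.rpow_add hY0, ← Real.rpow_add hY0]
          rw [show ε / 64 + -(ε / 32) + ε / 64 = 0 by ring, Real.rpow_zero, mul_one]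
  have hKr : (0 : ℝ) ≤ K := Nat.cast_nonneg _
  have hYe : (0 : ℝ) < (Y : ℝ) ^ (-(ε / 32)) := by positivity
  have he1 : (X : ℝ) * (Y : ℝ) ^ (-(ε / 16)) ≤ X * (f * V1) / 4 := by
    have h1 : (Y : ℝ) ^ (-(ε / 16)) ≤ (Y : ℝ) ^ (-(ε / 32)) :=
      Real.rpow_le_rpow_of_exponent_le hY1r (by linarith)
    have h2 : 4 * (Y : ℝ) ^ (-(ε / 16)) ≤ f * V1 := by
      refine le_trans ?_ hbase
      nlinarith
    have h3 := mul_le_mul_of_nonneg_left h2 hX0.le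
    linarith
  have he2 : (3 * F.natDegree : ℝ) ≤ X * (f * V1) / 4 := by
    have h1 : (F.natDegree : ℝ) ≤ K := by exact_mod_cast hFK
    have h2 : 1 ≤ (X : ℝ) * (Y : ℝ) ^ (-(ε / 32)) := by
      calc (1 : ℝ) ≤ (Y : ℝ) ^ (β + -(ε / 32)) := Real.one_le_rpow hY1r (by linarith)
        _ = (Y : ℝ) ^ β * (Y : ℝ) ^ (-(ε / 32)) := Real.rpow_add hY0 _ _
        _ ≤ _ := mul_le_mul_of_nonneg_right hX hYe.le
    have h3 := mul_le_mul_of_nonneg_left hbase hX0.le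
    have h4 : 4 * (3 * (K : ℝ) + 1) ≤ X * (4 * (3 * K + 1) * (Y : ℝ) ^ (-(ε / 32))) := by
      calc 4 * (3 * (K : ℝ) + 1) = 4 * (3 * K + 1) * 1 := by ring
        _ ≤ 4 * (3 * K + 1) * ((X : ℝ) * (Y : ℝ) ^ (-(ε / 32))) :=
            mul_le_mul_of_nonneg_left h2 (by positivity)
        _ = _ := by ring
    linarith
  have hfin : f / 2 * X * loc F k Z ≤ X * (f * V1) / 2 := by
    calc f / 2 * X * loc F k Z ≤ f / 2 * X * V1 :=
          mul_le_mul_of_nonneg_left hlocV (by positivity)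
      _ = _ := by ring
  linarith

end Pool.Agent.Y882.PY
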