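import Pool.Agent.Y882.PY.Core3

/-! Almost prime values of polynomials, for all but few constant terms: families of polynomials. -/

set_option autoImplicit false

namespace Pool.Agent.Y882.PY

open Finset Polynomial Filter
open Pool.Agent.W23.DC
open Pool.Agent.Y882.PX

open Classical in
/-- **The engine.**  Lower bounds for the number of the almost prime values of `F + k`, for all but few
`k`, uniformly in the polynomials `F` of bounded degree and bounded leading coefficient. -/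
theorem engine (K : ℕ) (β ζ h ε : ℝ) (hβ : 0 < β) (hζ0 : 0 < ζ) (hζ : ζ < 1 / 2) (hh : 0 < h)
    (hh2 : h ≤ 1) (hε : 0 < ε) : ∃ δ : ℝ, 0 < δ ∧ ∃ Y0 : ℕ, ∀ Y : ℕ, Y0 ≤ Y →
      ∀ (F : ℤ[X]) (H X Z : ℕ), 1 ≤ F.natDegree → KF F ≤ K → (H : ℝ) ≤ (Y : ℝ) ^ h →
      (Y : ℝ) ^ β ≤ X → (Y : ℝ) ^ β ≤ Z →
      (((Icc (-(H : ℤ)) (H : ℤ)).filter (fun k =>
        ((goodz F k X ((Y : ℝ) ^ ζ)).card : ℝ) < δ * X * loc F k Z)).card : ℝ) ≤
      (Y : ℝ) ^ (max (2 * h / 3) ζ + ε) + (H + (Y : ℝ) ^ (4 * ζ)) / X * (Y : ℝ) ^ ε := by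
  obtain ⟨δ, ε₁, η, hδ, hε₁, hε₁ζ, hε₁β, hη, Y1, HE⟩ := engine_core K β ζ (min ε β) hβ hζ0 hζ
    (lt_min hε hβ) (min_le_right _ _)
  obtain ⟨Y2, HM⟩ := mer_ro2 K ε₁ ζ η h ε hε₁ hζ.le hh hh2 hη hε
  refine ⟨δ, hδ, max (max Y1 Y2) 1, fun Y hY F H X Z hF hKF hH hX hZ => ?_⟩
  have hY1 : Y1 ≤ Y := ((le_max_left _ _).trans (le_max_left _ _)).trans hY
  have hY2 : Y2 ≤ Y := ((le_max_right _ _).trans (le_max_left _ _)).trans hY
  have hYr : (1 : ℝ) ≤ Y := by exact_mod_cast (le_max_right _ _).trans hY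
  have hK : ∀ p : ℕ, p.Prime → ∀ k : ℤ, ro F k p ≤ K :=
    fun p hp k => (ro_le F hF k p hp).trans hKF
  obtain ⟨A, hA, HA⟩ := HE Y hY1 F ∅ H X Z hF ((le_max_left _ _).trans hKF)
    (fun p hp _ k => hK p hp k) hX hZ
  have hB := HM Y hY2 F H hK hH
  set B := (Icc (-(H : ℤ)) (H : ℤ)).filter (fun k => ¬ Mer (pr Y ε₁ ζ) (tt Y)
        (fun p => (ro F k p : ℝ) / p) ε₁ ζ η) with hBdef
  have hsub : (Icc (-(H : ℤ)) (H : ℤ)).filter (fun k =>
        ((goodz F k X ((Y : ℝ) ^ ζ)).card : ℝ) < δ * X * loc F k Z) ⊆ B ∪ A := by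
    intro k hk
    rw [mem_filter] at hk
    rw [mem_union]
    by_contra hcon
    push Not at hcon
    have hmer : Mer (pr Y ε₁ ζ) (tt Y) (fun p => (ro F k p : ℝ) / p) ε₁ ζ η := by
      by_contra h'
      exact hcon.1 (by rw [hBdef, mem_filter]; exact ⟨hk.1, h'⟩)
    exact absurd (HA k hk.1 hcon.2 (fun p hp => absurd hp (notMem_empty _)) hmer)
      (not_le.2 hk.2)
  calc (((Icc (-(H : ℤ)) (H : ℤ)).filter (fun k =>
        ((goodz F k X ((Y : ℝ) ^ ζ)).card : ℝ) < δ * X * loc F k Z)).card : ℝ) ≤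
      ((B ∪ A).card : ℝ) := by exact_mod_cast card_le_card hsub
    _ ≤ B.card + A.card := by exact_mod_cast card_union_le _ _
    _ ≤ _ := by
        apply add_le_add hB
        refine hA.trans ?_
        apply mul_le_mul_of_nonneg_left _ (by positivity)
        exact Real.rpow_le_rpow_of_exponent_le hYr (min_le_left _ _)

end Pool.Agent.Y882.PY
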