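import Pool.Agent.Y882.PY.Err2

/-! Uniform versions of the regularity of the numbers of the roots. -/

set_option autoImplicit false

namespace Pool.Agent.Y882.PY

open Finset Polynomial Filter
open Pool.Agent.W23.DC
open Pool.Agent.Y882.PX

theorem gd_abs2 (F : ℤ[X]) (K : ℕ) (k : ℤ) (p : ℕ) (hp : p.Prime) (hK : ro F k p ≤ K) :
    |gd F k p| ≤ (K + 1) * (1 / ((p : ℝ) - 1)) := by
  have h1 : (ro F k p : ℝ) ≤ K := by exact_mod_cast hK
  have h2 : (2 : ℝ) ≤ p := by exact_mod_cast hp.two_le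
  have h0 : (0 : ℝ) ≤ ro F k p := Nat.cast_nonneg _
  unfold gd
  rw [abs_div, Nat.abs_cast, div_eq_mul_one_div]
  apply mul_le_mul
  · rw [abs_le]
    constructor <;> linarith
  · exact one_div_le_one_div_of_le (by linarith) (by linarith)
  · positivity
  · linarith

theorem gd_abs2' (F : ℤ[X]) (K : ℕ) (k : ℤ) (p : ℕ) (hp : p.Prime) (hK : ro F k p ≤ K) :
    |gd F k p| ≤ (K + 1) / (p : ℝ) := by
  have h1 : (ro F k p : ℝ) ≤ K := by exact_mod_cast hK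
  have h2 : (2 : ℝ) ≤ p := by exact_mod_cast hp.two_le
  have h0 : (0 : ℝ) ≤ ro F k p := Nat.cast_nonneg _
  unfold gd
  rw [abs_div, Nat.abs_cast]
  apply div_le_div_of_nonneg_right _ (by linarith)
  rw [abs_le]
  constructor <;> linarith

/-- few exceptional constant terms, for one short range of primes -/
theorem cell2 (K0 : ℕ) (u δ η h ε : ℝ) (hu : 0 < u) (hu2 : u ≤ 1) (hh : 0 < h) (hh2 : h ≤ 1)
    (hδ : 0 < δ) (hδ2 : δ ≤ u * ε / 8) (hδ3 : u + δ ≤ 1) (hη : 0 < η) (hε : 0 < ε) :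
    ∃ Y0 : ℕ, ∀ Y : ℕ, Y0 ≤ Y → ∀ (F : ℤ[X]) (H : ℕ), (∀ p : ℕ, p.Prime → ∀ k : ℤ, ro F k p ≤ K0) →
      (H : ℝ) ≤ (Y : ℝ) ^ h →
      (((Icc (-(H : ℤ)) H).filter (fun k => η < |∑ p ∈ pr Y u (u + δ), gd F k p|)).card : ℝ) ≤
        (Y : ℝ) ^ (max (2 * h / 3) u + ε) := by
  classical
  set M : ℝ := max (2 * h / 3) u with hM'
  have hM1 : 2 * h / 3 ≤ M := le_max_left _ _
  have hM2 : u ≤ M := le_max_right _ _
  have hM3 : M ≤ 1 := max_le (by linarith) hu2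
  obtain ⟨m, hm0, hm1, hm2⟩ : ∃ m : ℕ, 1 ≤ m ∧ h - m * u ≤ M ∧ (m : ℝ) * u ≤ M := by
    rcases le_or_gt u (h / 3) with h' | h'
    · refine ⟨⌈h / (3 * u)⌉₊, Nat.ceil_pos.2 (by positivity), ?_, ?_⟩
      · have h1 := Nat.le_ceil (h / (3 * u))
        have h2 : h / 3 ≤ (⌈h / (3 * u)⌉₊ : ℝ) * u := by
          calc h / 3 = h / (3 * u) * u := by field_simp
            _ ≤ _ := mul_le_mul_of_nonneg_right h1 hu.le
        linarith
      · have h1 := Nat.ceil_lt_add_one (show 0 ≤ h / (3 * u) by positivity)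
        calc (⌈h / (3 * u)⌉₊ : ℝ) * u ≤ (h / (3 * u) + 1) * u :=
              mul_le_mul_of_nonneg_right h1.le hu.le
          _ = h / 3 + u := by field_simp
          _ ≤ M := by linarith
    · refine ⟨1, le_rfl, ?_, ?_⟩
      · push_cast; linarith
      · push_cast; linarith
  have hmδ : 2 * (m * δ) ≤ ε / 4 := by
    have h1 : (m : ℝ) * δ ≤ m * (u * ε / 8) := mul_le_mul_of_nonneg_left hδ2 (by positivity)
    have h2 : (m : ℝ) * (u * ε / 8) = (m * u) * ε / 8 := by ring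
    have h3 : (m : ℝ) * u * ε ≤ 1 * ε := mul_le_mul_of_nonneg_right (hm2.trans hM3) hε.le
    linarith
  set K : ℝ := (K0 : ℝ) + 1 with hK
  have hK1 : 1 ≤ K := by
    have : (0 : ℝ) ≤ K0 := Nat.cast_nonneg _
    linarith
  set G0 : ℝ := K * (Real.log ((u + δ) / u) + 1) with hG0
  obtain ⟨C, hC, HC⟩ := esym_pow G0 m
  obtain ⟨N0, HM⟩ := Pool.Agent.W378.DC.MP u 1 hu one_pos
  set Z : ℝ := η ^ m / (2 * m.factorial) with hZ
  have hfac : (0 : ℝ) < m.factorial := by exact_mod_cast m.factorial_pos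
  have hZ0 : 0 < Z := by positivity
  have ev1 : ∀ᶠ Y : ℕ in atTop, 2 * C * K / η ^ m ≤ (Y : ℝ) ^ u :=
    tendsto_natCast_atTop_atTop.eventually ((tendsto_rpow_atTop hu).eventually_ge_atTop _)
  have ev2 : ∀ᶠ Y : ℕ in atTop, 48 * K ^ m / Z ^ 2 ≤ (Y : ℝ) ^ (3 * ε / 4) :=
    tendsto_natCast_atTop_atTop.eventually
      ((tendsto_rpow_atTop (by linarith)).eventually_ge_atTop _)
  obtain ⟨N1, hN1⟩ := eventually_atTop.1 (ev1.and (ev2.and (eventually_ge_atTop 2)))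
  refine ⟨max N0 N1, fun Y hY F H hF hHY => ?_⟩
  obtain ⟨e1, e2, e3⟩ := hN1 Y ((le_max_right _ _).trans hY)
  have hYr : (2 : ℝ) ≤ Y := by exact_mod_cast e3
  have hY1 : (1 : ℝ) ≤ Y := by linarith
  have hY0 : (0 : ℝ) < Y := by linarith
  set P := pr Y u (u + δ) with hP
  have hPp : ∀ p ∈ P, p.Prime := fun p hp => (pr_mem Y p u _ e3 hp).1
  have hM := HM Y ((le_max_left _ _).trans hY) u (u + δ) le_rfl (by linarith) hδ3
  -- the sums of the deviations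
  have hG : ∀ k : ℤ, ∑ p ∈ P, |gd F k p| ≤ G0 := by
    intro k
    calc ∑ p ∈ P, |gd F k p| ≤ ∑ p ∈ P, K * (1 / ((p : ℝ) - 1)) :=
          sum_le_sum fun p hp => gd_abs2 F K0 k p (hPp p hp) (hF p (hPp p hp) k)
      _ = K * ∑ p ∈ P, (1 / ((p : ℝ) - 1)) := by rw [mul_sum]
      _ ≤ G0 := by
          apply mul_le_mul_of_nonneg_left _ (by linarith)
          rw [abs_le] at hM
          linarith [hM.2]
  have hYu : (0 : ℝ) < (Y : ℝ) ^ u := by positivity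
  have hgd : ∀ k : ℤ, ∀ p ∈ P, |gd F k p| ≤ K / (Y : ℝ) ^ u := by
    intro k p hp
    refine (gd_abs2' F K0 k p (hPp p hp) (hF p (hPp p hp) k)).trans ?_
    exact div_le_div_of_nonneg_left (by linarith) hYu (pr_mem Y p u _ e3 hp).2.1
  have hbig : ∀ k ∈ (Icc (-(H : ℤ)) H).filter (fun k => η < |∑ p ∈ P, gd F k p|),
      Z ^ 2 ≤ EE F P m k ^ 2 := by
    intro k hk
    rw [mem_filter] at hk
    have h1 := HC P (gd F k) (K / (Y : ℝ) ^ u) (by positivity) (hgd k) (hG k)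
    have h2 : η ^ m ≤ |(∑ p ∈ P, gd F k p) ^ m| := by
      rw [abs_pow]
      exact pow_le_pow_left₀ hη.le hk.2.le m
    have h3 : C * (K / (Y : ℝ) ^ u) ≤ η ^ m / 2 := by
      rw [mul_div_assoc', div_le_iff₀ hYu]
      rw [div_le_iff₀ (by positivity)] at e1
      linarith
    have h4 : η ^ m / 2 ≤ |(m.factorial : ℝ) * EE F P m k| := by
      have h5 : |(∑ p ∈ P, gd F k p) ^ m| ≤ |(∑ p ∈ P, gd F k p) ^ m - m.factorial * EE F P m k| +
          |(m.factorial : ℝ) * EE F P m k| := by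
        have := abs_add_le ((∑ p ∈ P, gd F k p) ^ m - m.factorial * EE F P m k)
          ((m.factorial : ℝ) * EE F P m k)
        rwa [sub_add_cancel] at this
      have h6 : |(∑ p ∈ P, gd F k p) ^ m - m.factorial * EE F P m k| ≤ C * (K / (Y : ℝ) ^ u) := h1
      linarith
    rw [abs_mul, Nat.abs_cast] at h4
    have h5 : Z ≤ |EE F P m k| := by
      rw [hZ, div_le_iff₀ (by positivity)]
      linarith
    rw [← sq_abs (EE F P m k)]
    exact pow_le_pow_left₀ hZ0.le h5 2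
  set D : ℕ := ⌊(Y : ℝ) ^ (m * (u + δ))⌋₊ with hD
  set Q : ℕ := ⌈(Y : ℝ) ^ (m * u)⌉₊ with hQ
  have hYmu : (0 : ℝ) < (Y : ℝ) ^ (m * u) := by positivity
  have hQ1 : 1 ≤ Q := Nat.ceil_pos.2 hYmu
  have hTD : ∀ T ∈ P.powersetCard m, ∏ p ∈ T, p ≤ D := by
    intro T hT
    rw [mem_powersetCard] at hT
    rw [hD]
    apply Nat.le_floor
    push_cast
    calc ∏ p ∈ T, (p : ℝ) ≤ ∏ p ∈ T, (Y : ℝ) ^ (u + δ) := by
          apply Finset.prod_le_prod
          · intro _ _; positivity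
          · intro p hp
            exact (pr_mem Y p u _ e3 (hT.1 hp)).2.2.le
      _ = (Y : ℝ) ^ (m * (u + δ)) := by
          rw [prod_const, hT.2, ← Real.rpow_natCast, ← Real.rpow_mul hY0.le, mul_comm]
  have hTQ : ∀ T ∈ P.powersetCard m, Q ≤ ∏ p ∈ T, p := by
    intro T hT
    rw [mem_powersetCard] at hT
    rw [hQ]
    apply Nat.ceil_le.2
    push_cast
    calc (Y : ℝ) ^ (m * u) = ∏ p ∈ T, (Y : ℝ) ^ u := by
          rw [prod_const, hT.2, ← Real.rpow_natCast, ← Real.rpow_mul hY0.le, mul_comm]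
      _ ≤ ∏ p ∈ T, (p : ℝ) := by
          apply Finset.prod_le_prod
          · intro _ _; positivity
          · intro p hp
            exact (pr_mem Y p u _ e3 (hT.1 hp)).2.1
  have hTB : ∀ T ∈ P.powersetCard m, ∀ k : ℤ, (ro F k (∏ p ∈ T, p) : ℝ) ≤ K ^ m := by
    intro T hT k
    rw [mem_powersetCard] at hT
    refine (ro_le_pow2 F K0 k T (fun p hp => hPp p (hT.1 hp)) (fun p hp => hF p (hPp p (hT.1 hp)) k)).trans ?_
    rw [hT.2]
    exact pow_le_pow_left₀ (Nat.cast_nonneg _) (by rw [hK]; linarith) m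
  have hsq := EE_sq F P hPp m D Q (K ^ m) hQ1 (by positivity) hTB hTD hTQ H
  have hcount : ((((Icc (-(H : ℤ)) H).filter (fun k => η < |∑ p ∈ P, gd F k p|)).card : ℝ)) * Z ^ 2
      ≤ 6 * (2 * H + 1 + (D : ℝ) ^ 2) * (K ^ m * (2 / Q)) := by
    refine le_trans ?_ hsq
    calc ((((Icc (-(H : ℤ)) H).filter (fun k => η < |∑ p ∈ P, gd F k p|)).card : ℝ)) * Z ^ 2
        = ∑ k ∈ (Icc (-(H : ℤ)) H).filter (fun k => η < |∑ p ∈ P, gd F k p|), Z ^ 2 := by
          rw [sum_const, nsmul_eq_mul]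
      _ ≤ ∑ k ∈ (Icc (-(H : ℤ)) H).filter (fun k => η < |∑ p ∈ P, gd F k p|), EE F P m k ^ 2 :=
          sum_le_sum hbig
      _ ≤ _ := sum_le_sum_of_subset_of_nonneg (filter_subset _ _) (fun _ _ _ => by positivity)
  have hDr : (D : ℝ) ^ 2 ≤ (Y : ℝ) ^ (m * u) * (Y : ℝ) ^ (M + ε / 4) := by
    have h1 : (D : ℝ) ≤ (Y : ℝ) ^ (m * (u + δ)) := Nat.floor_le (by positivity)
    calc (D : ℝ) ^ 2 ≤ ((Y : ℝ) ^ (m * (u + δ))) ^ 2 := pow_le_pow_left₀ (by positivity) h1 2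
      _ = (Y : ℝ) ^ (m * (u + δ) * 2) := by
          rw [← Real.rpow_natCast, ← Real.rpow_mul hY0.le]
          norm_num
      _ ≤ (Y : ℝ) ^ (m * u + (M + ε / 4)) := by
          apply Real.rpow_le_rpow_of_exponent_le hY1
          nlinarith
      _ = _ := Real.rpow_add hY0 _ _
  have hYr' : 2 * (H : ℝ) + 1 ≤ 3 * ((Y : ℝ) ^ (m * u) * (Y : ℝ) ^ (M + ε / 4)) := by
    have h1 : (Y : ℝ) ^ h ≤ (Y : ℝ) ^ (m * u) * (Y : ℝ) ^ (M + ε / 4) := by
      rw [← Real.rpow_add hY0]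
      apply Real.rpow_le_rpow_of_exponent_le hY1
      linarith
    have h2 : 1 ≤ (Y : ℝ) ^ h := Real.one_le_rpow hY1 hh.le
    linarith
  have hQr : (Y : ℝ) ^ (m * u) ≤ Q := Nat.le_ceil _
  have hfin : 6 * (2 * H + 1 + (D : ℝ) ^ 2) * (K ^ m * (2 / Q)) ≤
      48 * K ^ m * (Y : ℝ) ^ (M + ε / 4) := by
    have h1 : 2 / (Q : ℝ) ≤ 2 / (Y : ℝ) ^ (m * u) :=
      div_le_div_of_nonneg_left (by norm_num) hYmu hQr
    calc 6 * (2 * H + 1 + (D : ℝ) ^ 2) * (K ^ m * (2 / Q)) ≤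
        6 * (4 * ((Y : ℝ) ^ (m * u) * (Y : ℝ) ^ (M + ε / 4))) *
          (K ^ m * (2 / (Y : ℝ) ^ (m * u))) := by
          apply mul_le_mul _ _ (by positivity) (by positivity)
          · linarith
          · exact mul_le_mul_of_nonneg_left h1 (by positivity)
      _ = 48 * K ^ m * (Y : ℝ) ^ (M + ε / 4) := by
          field_simp
          norm_num
  have h1 := hcount.trans hfin
  have h2 : 48 * K ^ m * (Y : ℝ) ^ (M + ε / 4) ≤ (Y : ℝ) ^ (M + ε) * Z ^ 2 := by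
    rw [div_le_iff₀ (by positivity)] at e2
    calc 48 * K ^ m * (Y : ℝ) ^ (M + ε / 4) ≤
        ((Y : ℝ) ^ (3 * ε / 4) * Z ^ 2) * (Y : ℝ) ^ (M + ε / 4) :=
          mul_le_mul_of_nonneg_right e2 (by positivity)
      _ = ((Y : ℝ) ^ (M + ε / 4) * (Y : ℝ) ^ (3 * ε / 4)) * Z ^ 2 := by ring
      _ = (Y : ℝ) ^ (M + ε) * Z ^ 2 := by
          rw [← Real.rpow_add hY0]
          congr 2
          ring
  exact le_of_mul_le_mul_right (h1.trans h2) (by positivity)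

end Pool.Agent.Y882.PY
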