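import Pool.Agent.Y882.PY.Eng
import Pool.Agent.Y882.Cum

/-! Auxiliary results for the applications. -/

set_option autoImplicit false

namespace Pool.Agent.Y882.PY

open Finset Polynomial Filter
open Pool.Agent.Y882.PX

theorem loc_anti (F : ℤ[X]) (k : ℤ) (Z Z' : ℕ) (h : Z ≤ Z') : loc F k Z' ≤ loc F k Z := by
  classical
  unfold loc
  have hsub : (Icc 1 Z).filter Nat.Prime ⊆ (Icc 1 Z').filter Nat.Prime := by
    apply filter_subset_filter
    exact Icc_subset_Icc_right h
  have h01 : ∀ p ∈ (Icc 1 Z').filter Nat.Prime,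
      0 ≤ 1 - (ro F k p : ℝ) / p ∧ 1 - (ro F k p : ℝ) / p ≤ 1 := by
    intro p hp
    have hp0 : (0 : ℝ) < p := by exact_mod_cast (mem_filter.1 hp).2.pos
    have h1 : (ro F k p : ℝ) ≤ p := by exact_mod_cast ro_le_self F k p
    constructor
    · rw [sub_nonneg, div_le_one hp0]
      exact h1
    · have : 0 ≤ (ro F k p : ℝ) / p := by positivity
      linarith
  rw [← prod_sdiff hsub]
  calc (∏ p ∈ (Icc 1 Z').filter Nat.Prime \ (Icc 1 Z).filter Nat.Prime,
      (1 - (ro F k p : ℝ) / p)) * ∏ p ∈ (Icc 1 Z).filter Nat.Prime, (1 - (ro F k p : ℝ) / p) ≤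
      1 * ∏ p ∈ (Icc 1 Z).filter Nat.Prime, (1 - (ro F k p : ℝ) / p) := by
        apply mul_le_mul_of_nonneg_right
        · apply prod_le_one
          · intro p hp
            exact (h01 p (Finset.mem_sdiff.1 hp).1).1
          · intro p hp
            exact (h01 p (Finset.mem_sdiff.1 hp).1).2
        · exact prod_nonneg fun p hp => (h01 p (hsub hp)).1
    _ = _ := one_mul _

theorem loc_nonneg (F : ℤ[X]) (k : ℤ) (Z : ℕ) : 0 ≤ loc F k Z := by
  classical
  unfold loc
  apply prod_nonneg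
  intro p hp
  have hp0 : (0 : ℝ) < p := by exact_mod_cast (mem_filter.1 hp).2.pos
  have h1 : (ro F k p : ℝ) ≤ p := by exact_mod_cast ro_le_self F k p
  rw [sub_nonneg, div_le_one hp0]
  exact h1

end Pool.Agent.Y882.PY
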